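import Mathlib

/-! Combinatorics on the first uncountable ordinal: closure points, stationary sets, and a
coherent family of colourings. -/

set_option linter.unusedSectionVars false

namespace Pool.Agent.P.MP_267911_gt

open Set

/-- An uncountable well-order all of whose initial segments are countable. -/
class IsOmegaOne (Ω : Type) [LinearOrder Ω] : Prop where
  wf : WellFoundedLT Ω
  unc : Uncountable Ω
  cnt : ∀ a : Ω, (Iio a).Countable

theorem exists_omegaOne : ∃ (Ω : Type) (_ : LinearOrder Ω), IsOmegaOne Ω := by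
  refine ⟨(Cardinal.aleph 1).ord.ToType, inferInstance, inferInstance, ?_, fun a => ?_⟩
  · rw [← Cardinal.aleph0_lt_mk_iff, Cardinal.mk_ord_toType]
    exact Cardinal.aleph0_lt_aleph_one
  · rw [← Cardinal.le_aleph0_iff_set_countable, ← Order.lt_succ_iff, Cardinal.succ_aleph0]
    exact Cardinal.mk_Iio_toType_ord_lt a

variable {Ω : Type} [LinearOrder Ω] [hΩ : IsOmegaOne Ω]

instance : WellFoundedLT Ω := hΩ.wf

instance : Uncountable Ω := hΩ.unc

theorem cnt_Iic (a : Ω) : (Iic a).Countable := by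
  rw [← Iio_insert]
  exact (hΩ.cnt a).insert a

theorem exists_ub {s : Set Ω} (hs : s.Countable) : ∃ b, ∀ a ∈ s, a < b := by
  by_contra h
  push Not at h
  have : (univ : Set Ω) ⊆ ⋃ a ∈ s, Iic a := fun b _ => by
    obtain ⟨a, ha, hb⟩ := h b
    exact mem_biUnion ha hb
  exact not_countable_univ ((hs.biUnion fun a _ => cnt_Iic a).mono this)

/-- `δ` is closed under `f`. -/
def Cl (f : Ω → Ω) (δ : Ω) : Prop := ∀ ξ < δ, f ξ < δ

theorem exists_cl (f : Ω → Ω) (a : Ω) : ∃ δ, a < δ ∧ Cl f δ := by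
  have h1 : ∀ x : Ω, ∃ y, x < y ∧ ∀ ξ ≤ x, f ξ < y := by
    intro x
    obtain ⟨y, hy⟩ := exists_ub (((cnt_Iic x).image f).insert x)
    exact ⟨y, hy x (mem_insert _ _), fun ξ hξ => hy _ (mem_insert_of_mem _ ⟨ξ, hξ, rfl⟩)⟩
  choose F hF using h1
  let u : ℕ → Ω := fun k => F^[k] a
  obtain ⟨δ, hδ, hmin⟩ := (wellFounded_lt (α := Ω)).has_min {b | ∀ k, u k < b} (by
    obtain ⟨b, hb⟩ := exists_ub (countable_range u)
    exact ⟨b, fun k => hb _ ⟨k, rfl⟩⟩)
  refine ⟨δ, hδ 0, fun ξ hξ => ?_⟩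
  have : ¬ ∀ k, u k < ξ := fun h => hmin ξ h hξ
  push Not at this
  obtain ⟨k, hk⟩ := this
  refine lt_trans ?_ (hδ (k + 1))
  have : u (k + 1) = F (u k) := Function.iterate_succ_apply' F k a
  rw [this]
  exact (hF _).2 ξ hk

/-- Stationary sets. -/
def Stat (S : Set Ω) : Prop := ∀ (f : Ω → Ω) (a : Ω), ∃ δ ∈ S, a < δ ∧ Cl f δ

theorem exists_stat (S : ℕ → Set Ω) (α : Ω) (h : ∀ β, α < β → ∃ n, β ∈ S n) :
    ∃ n, Stat (S n) := by
  by_contra hn
  simp only [Stat, not_exists, not_forall, not_and] at hn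
  choose f a hfa using hn
  choose g hg using fun ξ => exists_ub (countable_range fun n => f n ξ)
  obtain ⟨b, hb⟩ := exists_ub ((countable_range a).insert α)
  obtain ⟨δ, hbδ, hδ⟩ := exists_cl g b
  obtain ⟨n, hn⟩ := h δ ((hb α (mem_insert _ _)).trans hbδ)
  refine hfa n δ hn ((hb _ (mem_insert_of_mem _ ⟨n, rfl⟩)).trans hbδ) fun ξ hξ => ?_
  exact (hg ξ _ ⟨n, rfl⟩).trans (hδ ξ hξ)

theorem exists_partition (C : Type) [Finite C] [Nonempty C] :
    ∃ h : Ω → C, ∀ s, Stat {β | h β = s} := by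
  classical
  choose e he using fun β : Ω => Set.countable_iff_exists_injOn.1 (hΩ.cnt β)
  choose N hN using fun α : Ω =>
    exists_stat (fun n => {β | α < β ∧ e β α = n}) α fun β hβ => ⟨_, hβ, rfl⟩
  obtain ⟨n, hn⟩ : ∃ n, (N ⁻¹' {n}).Infinite := by
    by_contra h
    push Not at h
    have : (univ : Set Ω) ⊆ ⋃ n, N ⁻¹' {n} := fun b _ => mem_iUnion.2 ⟨N b, rfl⟩
    exact not_countable_univ ((countable_iUnion fun n => (h n).countable).mono this)
  obtain ⟨j, hj⟩ := Countable.exists_injective_nat C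
  let a : C → Ω := fun s => (hn.natEmbedding _ (j s)).1
  have ha : Function.Injective a := fun s t h =>
    hj ((hn.natEmbedding _).injective (Subtype.ext h))
  have haN : ∀ s, N (a s) = n := fun s => (hn.natEmbedding _ (j s)).2
  refine ⟨fun β => if h : ∃ s, a s < β ∧ e β (a s) = n then h.choose else Classical.arbitrary C,
    fun s f b => ?_⟩
  obtain ⟨δ, hδ, h1⟩ := hN (a s) f b
  refine ⟨δ, ?_, h1⟩
  have h2 : ∃ s, a s < δ ∧ e δ (a s) = n := ⟨s, hδ.1, hδ.2.trans (haN s)⟩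
  simp only [mem_ofPred_eq, dif_pos h2]
  exact ha (he δ h2.choose_spec.1 hδ.1 (h2.choose_spec.2.trans (hδ.2.trans (haN s)).symm))

theorem exists_enum (β : Ω) : ∃ u : ℕ → Ω, Iio β ⊆ range u :=
  countable_iff_exists_subset_range.1 (hΩ.cnt β)

/-- An enumeration covering the predecessors of `β`. -/
noncomputable def enum (β : Ω) : ℕ → Ω := (exists_enum β).choose

theorem exists_step {i β : Ω} (h : i < β) : ∃ k, i ≤ enum β k ∧ enum β k < β := by
  obtain ⟨k, hk⟩ := (exists_enum β).choose_spec h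
  exact ⟨k, hk.ge, hk.le.trans_lt h⟩

open Classical in
/-- The colouring at stage `β`. -/
noncomputable def col {C : Type} (h : Ω → C) (d : C) : Ω → Ω → ℕ → C :=
  (wellFounded_lt (α := Ω)).fix fun β rec i n =>
    if hi : i < β then
      if n ≤ Nat.find (exists_step hi) then h β
      else rec (enum β (Nat.find (exists_step hi))) (Nat.find_spec (exists_step hi)).2 i n
    else d

open Classical in
theorem col_eq {C : Type} (h : Ω → C) (d : C) (β i : Ω) (n : ℕ) : col h d β i n =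
    if hi : i < β then
      if n ≤ Nat.find (exists_step hi) then h β
      else col h d (enum β (Nat.find (exists_step hi))) i n
    else d := by
  unfold col
  rw [WellFounded.fix_eq]

variable {C : Type} (h : Ω → C) (d : C)

theorem col_coh_le (β : Ω) : ∀ γ ≤ β, ∃ t, ∀ i ≤ γ, ∀ n, t ≤ n →
    col h d γ i n = col h d β i n := by
  classical
  induction β using WellFoundedLT.induction with
  | ind β ih =>
    intro γ hγ
    rcases hγ.eq_or_lt with rfl | hγ
    · exact ⟨0, fun _ _ _ _ => rfl⟩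
    have h1 : ∀ η, ∃ t, η < β → ∀ i ≤ γ, i ≤ η → ∀ n, t ≤ n →
        col h d γ i n = col h d η i n := by
      intro η
      by_cases hη : η < β
      · rcases le_total γ η with h2 | h2
        · obtain ⟨t, ht⟩ := ih η hη γ h2
          exact ⟨t, fun _ i hi _ n hn => ht i hi n hn⟩
        · obtain ⟨t, ht⟩ := ih γ hγ η h2
          exact ⟨t, fun _ i _ hi n hn => (ht i hi n hn).symm⟩
      · exact ⟨0, fun h => absurd h hη⟩
    choose t ht using h1
    obtain ⟨k0, hk0⟩ := exists_step hγ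
    refine ⟨(k0 + 1) + (Finset.range (k0 + 1)).sup fun k => t (enum β k), fun i hi n hn => ?_⟩
    have hiβ : i < β := hi.trans_lt hγ
    have hk : Nat.find (exists_step hiβ) ≤ k0 := Nat.find_min' _ ⟨hi.trans hk0.1, hk0.2⟩
    have hspec := Nat.find_spec (exists_step hiβ)
    rw [col_eq h d β, dif_pos hiβ, if_neg (by omega)]
    refine ht _ hspec.2 i hi hspec.1 n ?_
    have := Finset.le_sup (f := fun k => t (enum β k))
      (Finset.mem_range.2 (show _ < k0 + 1 from Nat.lt_succ_of_le hk))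
    exact this.trans (le_trans (Nat.le_add_left _ _) hn)

theorem col_coh (β γ : Ω) : ∃ t, ∀ i < γ, i < β → ∀ n, t ≤ n →
    col h d γ i n = col h d β i n := by
  rcases le_total γ β with h1 | h1
  · obtain ⟨t, ht⟩ := col_coh_le h d β γ h1
    exact ⟨t, fun i hi _ n hn => ht i hi.le n hn⟩
  · obtain ⟨t, ht⟩ := col_coh_le h d γ β h1
    exact ⟨t, fun i _ hi n hn => (ht i hi.le n hn).symm⟩

theorem col_tail {a β : Ω} (ha : a < β) (n : ℕ) :
    ∃ ζ < β, ∀ i, ζ < i → i < β → ∀ m ≤ n, col h d β i m = h β := by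
  classical
  let F : Finset Ω := insert a (((Finset.range n).image (enum β)).filter (· < β))
  have hF : F.Nonempty := Finset.insert_nonempty _ _
  refine ⟨F.max' hF, ?_, fun i hi hiβ m hm => ?_⟩
  · rw [Finset.max'_lt_iff]
    intro y hy
    rcases Finset.mem_insert.1 hy with rfl | hy
    · exact ha
    · exact (Finset.mem_filter.1 hy).2
  · have hspec := Nat.find_spec (exists_step hiβ)
    rw [col_eq h d β, dif_pos hiβ, if_pos]
    by_contra hlt
    have : enum β (Nat.find (exists_step hiβ)) ∈ F :=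
      Finset.mem_insert_of_mem (Finset.mem_filter.2
        ⟨Finset.mem_image_of_mem _ (Finset.mem_range.2 (by omega)), hspec.2⟩)
    exact absurd (hi.trans_le hspec.1) (not_lt.2 (F.le_max' _ this))

theorem antiRamsey {s : C} (hs : Stat {β | h β = s}) (Z : Ω → ℕ → Prop)
    (hZ : ∀ γ, ∃ t, ∀ i n, Z i n → i < γ → col h d γ i n = s → n ≤ t) :
    ∃ t, ∀ n, t < n → ∃ b, ∀ i, Z i n → i ≤ b := by
  classical
  have h1 : ∀ (ξ : Ω) (n : ℕ), ∃ i, (∃ j, ξ < j ∧ Z j n) → ξ < i ∧ Z i n := by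
    intro ξ n
    by_cases h : ∃ j, ξ < j ∧ Z j n
    · obtain ⟨j, hj⟩ := h
      exact ⟨j, fun _ => hj⟩
    · exact ⟨ξ, fun h' => absurd h' h⟩
  choose w hw using h1
  choose g hg using fun ξ => exists_ub (countable_range (w ξ))
  obtain ⟨δ, hδ, ha, hcl⟩ := hs g (Classical.arbitrary Ω)
  obtain ⟨t, ht⟩ := hZ δ
  refine ⟨t, fun n hn => ?_⟩
  obtain ⟨ζ, hζ, hcol⟩ := col_tail h d ha n
  refine ⟨ζ, fun j hj => ?_⟩
  by_contra hlt
  obtain ⟨h2, h3⟩ := hw ζ n ⟨j, not_le.1 hlt, hj⟩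
  have h4 : w ζ n < δ := (hg ζ _ ⟨n, rfl⟩).trans (hcl ζ hζ)
  have := ht _ n h3 h4 ((hcol _ h2 h4 n le_rfl).trans hδ)
  omega

end Pool.Agent.P.MP_267911_gt
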