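import Mathlib

/-! Balleans, normality, powers, symmetric and hypersymmetric powers. -/

namespace Pool.Agent.P.MP_267911_gt

/-- `E[A]`, the union of the balls `E[a] = {y | (a, y) ∈ E}` over `a ∈ A`. -/
def ball {X : Type} (E : Set (X × X)) (A : Set X) : Set X := {y | ∃ a ∈ A, (a, y) ∈ E}

/-- The family `𝓔` of entourages makes `X` a ballean. -/
def IsBallean {X : Type} (𝓔 : Set (Set (X × X))) : Prop :=
  (∀ E ∈ 𝓔, ∀ x, (x, x) ∈ E) ∧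
  (∀ E ∈ 𝓔, ∀ F ∈ 𝓔, ∃ D ∈ 𝓔, ∀ x y z, (x, y) ∈ E → (z, y) ∈ F → (x, z) ∈ D) ∧
  ⋃₀ 𝓔 = Set.univ

/-- `B` is bounded: contained in a ball `E[x]`. -/
def IsBdd {X : Type} (𝓔 : Set (Set (X × X))) (B : Set X) : Prop :=
  ∃ E ∈ 𝓔, ∃ x, B ⊆ ball E {x}

/-- `A` and `B` are asymptotically disjoint. -/
def AsympDisjoint {X : Type} (𝓔 : Set (Set (X × X))) (A B : Set X) : Prop :=
  ∀ E ∈ 𝓔, IsBdd 𝓔 (ball E A ∩ ball E B)

/-- `U` is an asymptotic neighbourhood of `A`. -/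
def AsympNhd {X : Type} (𝓔 : Set (Set (X × X))) (U A : Set X) : Prop :=
  ∀ E ∈ 𝓔, IsBdd 𝓔 (ball E A \ U)

/-- Normality of a ballean. -/
def IsNormal {X : Type} (𝓔 : Set (Set (X × X))) : Prop :=
  ∀ A B : Set X, AsympDisjoint 𝓔 A B →
    ∃ U V : Set X, Disjoint U V ∧ AsympNhd 𝓔 U A ∧ AsympNhd 𝓔 V B

/-- The entourages of the power `X^n`. -/
def powEnt {X : Type} (𝓔 : Set (Set (X × X))) (n : ℕ) : Set (Set ((Fin n → X) × (Fin n → X))) :=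
  {F | ∃ E : Fin n → Set (X × X), (∀ i, E i ∈ 𝓔) ∧ F = {p | ∀ i, (p.1 i, p.2 i) ∈ E i}}

/-- Two tuples are equivalent when they differ by a permutation of the coordinates. -/
def permSetoid (X : Type) (n : ℕ) : Setoid (Fin n → X) where
  r x y := ∃ σ : Equiv.Perm (Fin n), y = x ∘ σ
  iseqv :=
    ⟨fun _ => ⟨1, rfl⟩,
     fun ⟨σ, h⟩ => ⟨σ.symm, by subst h; funext i; simp⟩,
     fun ⟨σ, h⟩ ⟨τ, h'⟩ => ⟨τ.trans σ, by subst h h'; rfl⟩⟩

/-- The entourages of the symmetric power `[X]^n = X^n / S_n`. -/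
def symEnt {X : Type} (𝓔 : Set (Set (X × X))) (n : ℕ) :
    Set (Set (Quotient (permSetoid X n) × Quotient (permSetoid X n))) :=
  {F | ∃ E ∈ powEnt 𝓔 n,
    F = (fun p => (Quotient.mk (permSetoid X n) p.1, Quotient.mk (permSetoid X n) p.2)) '' E}

/-- The entourages of the hyperballean of nonempty bounded sets. -/
def hyperEnt {X : Type} (𝓔 : Set (Set (X × X))) :
    Set (Set ({A : Set X // IsBdd 𝓔 A ∧ A.Nonempty} × {A : Set X // IsBdd 𝓔 A ∧ A.Nonempty})) :=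
  {F | ∃ E ∈ 𝓔, F = {p | p.1.1 ⊆ ball E p.2.1 ∧ p.2.1 ⊆ ball E p.1.1}}

/-- The entourages of the subballean `Y`. -/
def subEnt {X : Type} (𝓔 : Set (Set (X × X))) (Y : Set X) : Set (Set (Y × Y)) :=
  {F | ∃ E ∈ 𝓔, F = {p | (p.1.1, p.2.1) ∈ E}}

/-- The entourages of the hypersymmetric power `[X]^{≤ n}`. -/
def hypersymEnt {X : Type} (𝓔 : Set (Set (X × X))) (n : ℕ) :=
  subEnt (hyperEnt 𝓔) {A | A.1.encard ≤ n}

end Pool.Agent.P.MP_267911_gt
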