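import Mathlib
import Pool.Agent.P.MP_267911_gt.Defs
import Pool.Agent.P.MP_267911_gt.Omega

/-! A ballean whose symmetric cube is normal and whose third hypersymmetric power is not. -/

set_option linter.unusedSectionVars false

namespace Pool.Agent.P.MP_267911_gt

open Set

/-- Six vertices: two sides with three vertices each. -/
abbrev T : Type := Fin 2 × Fin 3

/-- In colour `s` the vertex `s` is cut off from its side. -/
def RR (s x y : T) : Prop := x.1 = y.1 ∧ (x = s ↔ y = s)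

instance (s x y : T) : Decidable (RR s x y) := by unfold RR; infer_instance

theorem three_edges' : ∀ a b c : Fin 2, ∀ a1 a2 b1 b2 c1 c2 : Fin 3,
    ∃ s, RR s (a, a1) (a, a2) ∧ RR s (b, b1) (b, b2) ∧ RR s (c, c1) (c, c2) := by
  decide +kernel

theorem three_edges (a b : Fin 3 → T) (h : ∀ j, (a j).1 = (b j).1) :
    ∃ s, ∀ j, RR s (a j) (b j) := by
  obtain ⟨s, h0, h1, h2⟩ := three_edges' (a 0).1 (a 1).1 (a 2).1 (a 0).2 (b 0).2 (a 1).2 (b 1).2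
    (a 2).2 (b 2).2
  refine ⟨s, fun j => ?_⟩
  have hb : b j = ((a j).1, (b j).2) := by rw [h j]
  rw [hb]
  fin_cases j
  · exact h0
  · exact h1
  · exact h2

theorem RR.symm {s x y : T} (h : RR s x y) : RR s y x := ⟨h.1.symm, h.2.symm⟩

theorem RR.trans {s x y z : T} (h : RR s x y) (h' : RR s y z) : RR s x z :=
  ⟨h.1.trans h'.1, h.2.trans h'.2⟩

variable {Ω : Type} [LinearOrder Ω] [hΩ : IsOmegaOne Ω] (h : Ω → T)

/-- The underlying set. -/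
abbrev XX (Ω : Type) : Type := Ω × ℕ × T

/-- The colouring. -/
noncomputable def cc (γ : Ω) (x : XX Ω) : T := col h (0, 0) γ x.1 x.2.1

/-- The basic entourages. -/
def EE (γ : Ω) (t : ℕ) : Set (XX Ω × XX Ω) :=
  {p | p.1 = p.2 ∨ (p.1.2.1 ≤ t ∧ p.2.2.1 ≤ t) ∨
    (p.1.1 = p.2.1 ∧ p.1.2.1 = p.2.2.1 ∧ p.1.1 < γ ∧ RR (cc h γ p.1) p.1.2.2 p.2.2.2)}

/-- The enlarged entourages. -/
def EP (γ : Ω) (t : ℕ) : Set (XX Ω × XX Ω) :=
  EE h γ t ∪ {p | p.1.1 = p.2.1 ∧ p.1.2.1 = p.2.2.1 ∧ γ ≤ p.1.1 ∧ p.1.2.2.1 = p.2.2.2.1}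

/-- The coarse structure. -/
def Ent : Set (Set (XX Ω × XX Ω)) := {E | ∃ γ t, E = EE h γ t}

variable {h}

theorem cc_congr {γ : Ω} {x y : XX Ω} (h1 : x.1 = y.1) (h2 : x.2.1 = y.2.1) :
    cc h γ x = cc h γ y := by
  simp only [cc, h1, h2]

theorem EE_refl (γ : Ω) (t : ℕ) (x : XX Ω) : (x, x) ∈ EE h γ t := Or.inl rfl

theorem EE_symm {γ : Ω} {t : ℕ} {x y : XX Ω} (hxy : (x, y) ∈ EE h γ t) : (y, x) ∈ EE h γ t := by
  rcases hxy with h1 | ⟨h1, h2⟩ | ⟨h1, h2, h3, h4⟩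
  · exact Or.inl h1.symm
  · exact Or.inr (Or.inl ⟨h2, h1⟩)
  · refine Or.inr (Or.inr ⟨h1.symm, h2.symm, h1 ▸ h3, ?_⟩)
    change RR (cc h γ y) y.2.2 x.2.2
    rw [← cc_congr (x := x) h1 h2]
    exact h4.symm

theorem EP_symm {γ : Ω} {t : ℕ} {x y : XX Ω} (hxy : (x, y) ∈ EP h γ t) : (y, x) ∈ EP h γ t := by
  rcases hxy with h1 | ⟨h1, h2, h3, h4⟩
  · exact Or.inl (EE_symm h1)
  · exact Or.inr ⟨h1.symm, h2.symm, h1 ▸ h3, h4.symm⟩

theorem EE_trans {γ : Ω} {t : ℕ} {x y z : XX Ω} (hxy : (x, y) ∈ EE h γ t)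
    (hyz : (y, z) ∈ EE h γ t) : (x, z) ∈ EE h γ t := by
  rcases hxy with h1 | ⟨h1, h2⟩ | ⟨h1, h2, h3, h4⟩
  · dsimp only at h1; rw [h1]; exact hyz
  · rcases hyz with k1 | ⟨k1, k2⟩ | ⟨k1, k2, k3, k4⟩
    · dsimp only at k1; rw [← k1]; exact Or.inr (Or.inl ⟨h1, h2⟩)
    · exact Or.inr (Or.inl ⟨h1, k2⟩)
    · exact Or.inr (Or.inl ⟨h1, k2 ▸ h2⟩)
  · rcases hyz with k1 | ⟨k1, k2⟩ | ⟨k1, k2, k3, k4⟩
    · dsimp only at k1; rw [← k1]; exact Or.inr (Or.inr ⟨h1, h2, h3, h4⟩)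
    · exact Or.inr (Or.inl ⟨h2 ▸ k1, k2⟩)
    · refine Or.inr (Or.inr ⟨h1.trans k1, h2.trans k2, h3, h4.trans ?_⟩)
      change RR (cc h γ x) y.2.2 z.2.2
      rw [cc_congr (y := y) h1 h2]
      exact k4

theorem EP_trans {γ : Ω} {t : ℕ} {x y z : XX Ω} (hxy : (x, y) ∈ EP h γ t)
    (hyz : (y, z) ∈ EP h γ t) : (x, z) ∈ EP h γ t := by
  rcases hxy with hxy | ⟨h1, h2, h3, h4⟩
  · rcases hyz with hyz | ⟨k1, k2, k3, k4⟩
    · exact Or.inl (EE_trans hxy hyz)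
    · rcases hxy with h1 | ⟨h1, h2⟩ | ⟨h1, h2, h3, h4⟩
      · dsimp only at h1; rw [h1]; exact Or.inr ⟨k1, k2, k3, k4⟩
      · exact Or.inl (Or.inr (Or.inl ⟨h1, k2 ▸ h2⟩))
      · exact absurd (h1 ▸ h3) (not_lt.2 k3)
  · rcases hyz with hyz | ⟨k1, k2, k3, k4⟩
    · rcases hyz with k1 | ⟨k1, k2⟩ | ⟨k1, k2, k3, k4⟩
      · dsimp only at k1; rw [← k1]; exact Or.inr ⟨h1, h2, h3, h4⟩
      · exact Or.inl (Or.inr (Or.inl ⟨h2 ▸ k1, k2⟩))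
      · exact absurd k3 (not_lt.2 (h1 ▸ h3))
    · exact Or.inr ⟨h1.trans k1, h2.trans k2, h3, h4.trans k4⟩

theorem EP_lev {γ : Ω} {t : ℕ} {x y : XX Ω} (hxy : (x, y) ∈ EP h γ t) :
    y.2.1 ≤ max t x.2.1 := by
  rcases hxy with (h1 | ⟨h1, h2⟩ | ⟨h1, h2, h3, h4⟩) | ⟨h1, h2, h3, h4⟩
  · dsimp only at h1; rw [h1]; exact le_max_right _ _
  · exact h2.trans (le_max_left _ _)
  · exact h2 ▸ le_max_right _ _
  · exact h2 ▸ le_max_right _ _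

theorem EE_mono_t {γ : Ω} {t t' : ℕ} (ht : t ≤ t') : EE h γ t ⊆ EE h γ t' := by
  rintro p (h1 | ⟨h1, h2⟩ | h1)
  · exact Or.inl h1
  · exact Or.inr (Or.inl ⟨h1.trans ht, h2.trans ht⟩)
  · exact Or.inr (Or.inr h1)

theorem EP_mono_t {γ : Ω} {t t' : ℕ} (ht : t ≤ t') : EP h γ t ⊆ EP h γ t' :=
  union_subset_union_left _ (EE_mono_t ht)

theorem EE_sub_EP (β γ : Ω) (t : ℕ) : ∃ t', ∀ p ∈ EE h β t,
    p ∈ EE h γ t' ∨ (γ ≤ p.1.1 ∧ p.1.1 < β ∧ p ∈ EP h γ t') := by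
  obtain ⟨t0, ht0⟩ := col_coh h (0, 0) γ β
  refine ⟨max t t0, ?_⟩
  rintro p (h1 | ⟨h1, h2⟩ | ⟨h1, h2, h3, h4⟩)
  · exact Or.inl (Or.inl h1)
  · exact Or.inl (Or.inr (Or.inl ⟨h1.trans (le_max_left _ _), h2.trans (le_max_left _ _)⟩))
  · rcases lt_or_ge p.1.1 γ with h5 | h5
    · left
      rcases le_total t0 p.1.2.1 with h6 | h6
      · refine Or.inr (Or.inr ⟨h1, h2, h5, ?_⟩)
        have : cc h γ p.1 = cc h β p.1 := (ht0 _ h3 h5 _ h6).symm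
        rw [this]
        exact h4
      · exact Or.inr (Or.inl ⟨h6.trans (le_max_right _ _), h2 ▸ h6.trans (le_max_right _ _)⟩)
    · exact Or.inr ⟨h5, h3, Or.inr ⟨h1, h2, h5, h4.1⟩⟩

theorem EE_mono {β γ : Ω} (hβ : β ≤ γ) (t : ℕ) : ∃ t', EE h β t ⊆ EE h γ t' := by
  obtain ⟨t', ht'⟩ := EE_sub_EP (h := h) β γ t
  refine ⟨t', fun p hp => ?_⟩
  rcases ht' p hp with h1 | ⟨h1, h2, _⟩
  · exact h1
  · exact absurd (h2.trans_le hβ) (not_lt.2 h1)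

theorem EE_sub_EP' (β γ : Ω) (t : ℕ) : ∃ t', EE h β t ⊆ EP h γ t' := by
  obtain ⟨t', ht'⟩ := EE_sub_EP (h := h) β γ t
  refine ⟨t', fun p hp => ?_⟩
  rcases ht' p hp with h1 | ⟨_, _, h1⟩
  · exact Or.inl h1
  · exact h1

theorem isBallean : IsBallean (Ent h) := by
  refine ⟨?_, ?_, ?_⟩
  · rintro _ ⟨γ, t, rfl⟩ x
    exact EE_refl γ t x
  · rintro _ ⟨γ, t, rfl⟩ _ ⟨β, t', rfl⟩
    obtain ⟨a, ha⟩ := EE_mono (h := h) (le_max_left γ β) t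
    obtain ⟨b, hb⟩ := EE_mono (h := h) (le_max_right γ β) t'
    refine ⟨_, ⟨max γ β, max a b, rfl⟩, fun x y z h1 h2 => ?_⟩
    exact EE_trans (EE_mono_t (le_max_left _ _) (ha h1))
      (EE_symm (EE_mono_t (le_max_right _ _) (hb h2)))
  · rw [eq_univ_iff_forall]
    intro p
    exact ⟨_, ⟨p.1.1, max p.1.2.1 p.2.2.1, rfl⟩,
      Or.inr (Or.inl ⟨le_max_left _ _, le_max_right _ _⟩)⟩

/-- Parameters for the reflection argument. -/
abbrev Par (Ω : Type) : Type := ℕ × (Fin 3 → Fin 3) × (Fin 3 → XX Ω × XX Ω)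

/-- All ordinals in the parameter are at most `ξ`. -/
def ParLe (ξ : Ω) : Set (Par Ω) := {τ | ∀ j, (τ.2.2 j).1.1 ≤ ξ ∧ (τ.2.2 j).2.1 ≤ ξ}

theorem countable_ParLe (ξ : Ω) : (ParLe ξ).Countable := by
  have h1 : {x : XX Ω | x.1 ≤ ξ}.Countable := by
    have : {x : XX Ω | x.1 ≤ ξ} = Iic ξ ×ˢ univ := by ext x; simp
    rw [this]
    exact (cnt_Iic ξ).prod countable_univ
  have h2 : {w : Fin 3 → XX Ω × XX Ω | ∀ j, w j ∈ {x : XX Ω | x.1 ≤ ξ} ×ˢ {x : XX Ω | x.1 ≤ ξ}}.Countable :=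
    countable_pi fun _ => h1.prod h1
  refine ((countable_univ (α := ℕ)).prod ((countable_univ (α := Fin 3 → Fin 3)).prod h2)).mono ?_
  intro τ hτ
  exact ⟨trivial, trivial, fun j => hτ j⟩

/-- The pair `q` realises the parameter `τ` above `ζ`. -/
def Real' (τ : Par Ω) (ζ : Ω) (q : (Fin 3 → XX Ω) × (Fin 3 → XX Ω)) : Prop :=
  ∀ j, (q.1 j).2.1 = (τ.2.2 j).1.2.1 ∧
    (τ.2.1 j = 0 → (q.1 j).1 = (q.2 j).1 ∧ (q.1 j).2.1 = (q.2 j).2.1 ∧ ζ < (q.1 j).1 ∧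
      (q.1 j).2.2 = (τ.2.2 j).1.2.2 ∧ (q.2 j).2.2 = (τ.2.2 j).2.2.2) ∧
    (τ.2.1 j = 1 → q.1 j = q.2 j ∨ ((q.1 j).2.1 ≤ τ.1 ∧ (q.2 j).2.1 ≤ τ.1)) ∧
    (τ.2.1 j = 2 → q.1 j = (τ.2.2 j).1 ∧ q.2 j = (τ.2.2 j).2)

theorem reflect (hs : ∀ s, Stat {β | h β = s}) (P : Set ((Fin 3 → XX Ω) × (Fin 3 → XX Ω)))
    (hP : ∀ γ t, ∃ N, ∀ q ∈ P, (∀ j, (q.1 j, q.2 j) ∈ EE h γ t) → ∀ j, (q.1 j).2.1 ≤ N) :
    ∃ δ, ∀ t, ∃ N, ∀ q ∈ P, (∀ j, (q.1 j, q.2 j) ∈ EP h δ t) → ∀ j, (q.1 j).2.1 ≤ N := by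
  classical
  obtain ⟨a0⟩ : Nonempty Ω := inferInstance
  have h1 : ∀ τ : Par Ω, ∃ ζ, (∃ q ∈ P, Real' τ ζ q) → ∀ ζ', ∃ q ∈ P, Real' τ ζ' q := by
    intro τ
    by_cases hτ : ∀ ζ', ∃ q ∈ P, Real' τ ζ' q
    · exact ⟨a0, fun _ => hτ⟩
    · obtain ⟨ζ, hζ⟩ := not_forall.1 hτ
      exact ⟨ζ, fun h' => absurd h' hζ⟩
  choose F hF using h1
  choose f hf using fun ξ : Ω => exists_ub ((countable_ParLe ξ).image F)
  obtain ⟨δ, ha0, hδ⟩ := exists_cl f a0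
  have h2 : ∀ (τ : Par Ω) (ζ : Ω), ∃ b, (∃ q ∈ P, Real' τ ζ q) →
      ∃ q ∈ P, Real' τ ζ q ∧ ∀ j, (q.1 j).1 < b := by
    intro τ ζ
    by_cases hτ : ∃ q ∈ P, Real' τ ζ q
    · obtain ⟨q, hq, hq'⟩ := hτ
      obtain ⟨b, hb⟩ := exists_ub (countable_range fun j => (q.1 j).1)
      exact ⟨b, fun _ => ⟨q, hq, hq', fun j => hb _ ⟨j, rfl⟩⟩⟩
    · exact ⟨a0, fun h' => absurd h' hτ⟩
  choose G hG using h2
  choose g hg using fun ζ : Ω => exists_ub ((countable_ParLe δ).image fun τ => G τ ζ)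
  choose δ' hδ's hδ'δ hδ'cl using fun s => hs s g δ
  refine ⟨δ, fun t => ?_⟩
  choose t' ht' using fun s => EE_mono (h := h) (hδ'δ s).le t
  choose N hN using fun s => hP (δ' s) (max t (t' s))
  refine ⟨Finset.univ.sup N, fun p hp hrel => ?_⟩
  let kind : Fin 3 → Fin 3 := fun j =>
    if p.1 j = p.2 j ∨ ((p.1 j).2.1 ≤ t ∧ (p.2 j).2.1 ≤ t) then 1
    else if (p.1 j).1 < δ then 2 else 0
  have hk0 : ∀ j, kind j = 0 → (p.1 j).1 = (p.2 j).1 ∧ (p.1 j).2.1 = (p.2 j).2.1 ∧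
      δ ≤ (p.1 j).1 ∧ (p.1 j).2.2.1 = (p.2 j).2.2.1 := by
    intro j hj
    simp only [kind] at hj
    split_ifs at hj with c1 c2
    · exact absurd hj (by decide)
    · exact absurd hj (by decide)
    · rcases hrel j with (k | k | k) | k
      · exact absurd (Or.inl k) c1
      · exact absurd (Or.inr k) c1
      · exact absurd k.2.2.1 c2
      · exact k
  have hk1 : ∀ j, kind j = 1 → p.1 j = p.2 j ∨ ((p.1 j).2.1 ≤ t ∧ (p.2 j).2.1 ≤ t) := by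
    intro j hj
    simp only [kind] at hj
    split_ifs at hj with c1 c2
    · exact c1
    · exact absurd hj (by decide)
    · exact absurd hj (by decide)
  have hk2 : ∀ j, kind j = 2 → (p.1 j).1 < δ ∧ (p.2 j).1 < δ ∧ (p.1 j, p.2 j) ∈ EE h δ t := by
    intro j hj
    simp only [kind] at hj
    split_ifs at hj with c1 c2
    · exact absurd hj (by decide)
    · rcases hrel j with (k | k | k) | k
      · exact absurd (Or.inl k) c1
      · exact absurd (Or.inr k) c1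
      · exact ⟨c2, k.1 ▸ c2, Or.inr (Or.inr k)⟩
      · exact absurd c2 (not_lt.2 k.2.2.1)
    · exact absurd hj (by decide)
  let w : Fin 3 → XX Ω × XX Ω := fun j =>
    if kind j = 2 then (p.1 j, p.2 j) else ((a0, (p.1 j).2), (a0, (p.2 j).2))
  have hw1 : ∀ j, (w j).1.2 = (p.1 j).2 ∧ (w j).2.2 = (p.2 j).2 := by
    intro j
    simp only [w]
    split_ifs <;> exact ⟨rfl, rfl⟩
  have hw2 : ∀ j, kind j = 2 → w j = (p.1 j, p.2 j) := fun j hj => if_pos hj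
  have hw3 : ∀ j, (w j).1.1 < δ ∧ (w j).2.1 < δ := by
    intro j
    simp only [w]
    split_ifs with c
    · exact ⟨(hk2 j c).1, (hk2 j c).2.1⟩
    · exact ⟨ha0, ha0⟩
  let τ : Par Ω := (t, kind, w)
  have hreal : ∀ ζ < δ, Real' τ ζ p := by
    intro ζ hζ j
    refine ⟨(congrArg Prod.fst (hw1 j).1).symm, fun hj => ?_, hk1 j, fun hj => ?_⟩
    · obtain ⟨k1, k2, k3, _⟩ := hk0 j hj
      exact ⟨k1, k2, hζ.trans_le k3, (congrArg Prod.snd (hw1 j).1).symm,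
        (congrArg Prod.snd (hw1 j).2).symm⟩
    · exact ⟨(congrArg Prod.fst (hw2 j hj)).symm, (congrArg Prod.snd (hw2 j hj)).symm⟩
  have hall : ∀ ζ, ∃ q ∈ P, Real' τ ζ q := by
    let ξ := Finset.univ.sup' ⟨(0 : Fin 3), Finset.mem_univ _⟩ fun j => max (w j).1.1 (w j).2.1
    have hξ : ξ < δ := (Finset.sup'_lt_iff _).2 fun j _ => max_lt (hw3 j).1 (hw3 j).2
    have hτ : τ ∈ ParLe ξ := fun j =>
      have := Finset.le_sup' (fun j => max (w j).1.1 (w j).2.1) (Finset.mem_univ j)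
      ⟨(le_max_left _ _).trans this, (le_max_right _ _).trans this⟩
    exact hF τ ⟨p, hp, hreal _ ((hf ξ _ ⟨τ, hτ, rfl⟩).trans (hδ ξ hξ))⟩
  obtain ⟨s, hs'⟩ := three_edges (fun j => if kind j = 0 then (p.1 j).2.2 else (0, 0))
    (fun j => if kind j = 0 then (p.2 j).2.2 else (0, 0)) (by
      intro j
      split_ifs with c
      · exact (hk0 j c).2.2.2
      · rfl)
  obtain ⟨ζ, hζ, hcol⟩ := col_tail h (0, 0) (hδ'δ s) (Finset.univ.sup fun j => (p.1 j).2.1)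
  obtain ⟨q, hq, hqr, hqb⟩ := hG τ ζ (hall ζ)
  have hτδ : τ ∈ ParLe δ := fun j => ⟨(hw3 j).1.le, (hw3 j).2.le⟩
  have hlev : ∀ j, (q.1 j).2.1 = (p.1 j).2.1 := fun j =>
    (hqr j).1.trans (congrArg Prod.fst (hw1 j).1)
  have hqE : ∀ j, (q.1 j, q.2 j) ∈ EE h (δ' s) (max t (t' s)) := by
    intro j
    obtain ⟨-, c0, c1, c2⟩ := hqr j
    have hcase : kind j = 0 ∨ kind j = 1 ∨ kind j = 2 := by
      generalize kind j = k
      revert k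
      decide
    rcases hcase with hj | hj | hj
    · obtain ⟨k1, k2, k3, k4, k5⟩ := c0 hj
      have k6 : (q.1 j).1 < δ' s :=
        (hqb j).trans ((hg ζ _ ⟨τ, hτδ, rfl⟩).trans (hδ'cl s ζ hζ))
      refine Or.inr (Or.inr ⟨k1, k2, k6, ?_⟩)
      have k7 : cc h (δ' s) (q.1 j) = s := by
        refine (hcol _ k3 k6 _ ?_).trans (hδ's s)
        rw [hlev]
        exact Finset.le_sup (f := fun j => (p.1 j).2.1) (Finset.mem_univ j)
      have k8 := hs' j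
      simp only [if_pos hj] at k8
      change RR (cc h (δ' s) (q.1 j)) (q.1 j).2.2 (q.2 j).2.2
      rw [k7, k4, k5]
      change RR s (w j).1.2.2 (w j).2.2.2
      rw [(hw1 j).1, (hw1 j).2]
      exact k8
    · rcases c1 hj with k | ⟨k1, k2⟩
      · exact Or.inl k
      · exact Or.inr (Or.inl ⟨k1.trans (le_max_left _ _), k2.trans (le_max_left _ _)⟩)
    · obtain ⟨k1, k2⟩ := c2 hj
      have : (q.1 j, q.2 j) = (p.1 j, p.2 j) := (Prod.ext k1 k2).trans (hw2 j hj)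
      rw [this]
      exact EE_mono_t (le_max_right _ _) (ht' s (hk2 j hj).2.2)
  intro j
  rw [← hlev]
  exact (hN s q hq hqE j).trans (Finset.le_sup (f := N) (Finset.mem_univ s))

theorem normal_of_chain {W : Type} (𝓔 : Set (Set (W × W))) (A B : Set W) (G : ℕ → Set (W × W))
    (hmono : Monotone G) (hcof : ∀ E ∈ 𝓔, ∃ t, E ⊆ G t)
    (hbdd : ∀ t, IsBdd 𝓔 (ball (G t) A ∩ ball (G t) B)) :
    ∃ U V : Set W, Disjoint U V ∧ AsympNhd 𝓔 U A ∧ AsympNhd 𝓔 V B := by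
  have hb : ∀ {E F : Set (W × W)} (C : Set W), E ⊆ F → ball E C ⊆ ball F C := by
    rintro E F C hEF y ⟨a, ha, hy⟩
    exact ⟨a, ha, hEF hy⟩
  refine ⟨⋃ t, ball (G t) A \ ball (G t) B, ⋃ t, ball (G t) B \ ball (G t) A, ?_, ?_, ?_⟩
  · rw [Set.disjoint_left]
    intro w hU hV
    obtain ⟨t, h1, h2⟩ := mem_iUnion.1 hU
    obtain ⟨t', h3, h4⟩ := mem_iUnion.1 hV
    rcases le_total t t' with ht | ht
    · exact h4 (hb A (hmono ht) h1)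
    · exact h2 (hb B (hmono ht) h3)
  · intro E hE
    obtain ⟨t, ht⟩ := hcof E hE
    obtain ⟨D, hD, x, hx⟩ := hbdd t
    refine ⟨D, hD, x, fun w hw => hx ⟨hb A ht hw.1, ?_⟩⟩
    by_contra hc
    exact hw.2 (mem_iUnion.2 ⟨t, hb A ht hw.1, hc⟩)
  · intro E hE
    obtain ⟨t, ht⟩ := hcof E hE
    obtain ⟨D, hD, x, hx⟩ := hbdd t
    refine ⟨D, hD, x, fun w hw => hx ⟨?_, hb B ht hw.1⟩⟩
    by_contra hc
    exact hw.2 (mem_iUnion.2 ⟨t, hb B ht hw.1, hc⟩)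

theorem sym_normal (hs : ∀ s, Stat {β | h β = s}) : IsNormal (symEnt (Ent h) 3) := by
  intro A B hAB
  obtain ⟨a0⟩ : Nonempty Ω := inferInstance
  let mk : (Fin 3 → XX Ω) → Quotient (permSetoid (XX Ω) 3) := Quotient.mk _
  have hmem : ∀ γ t, ((fun p => (mk p.1, mk p.2)) ''
      {p : (Fin 3 → XX Ω) × (Fin 3 → XX Ω) | ∀ j, (p.1 j, p.2 j) ∈ EE h γ t}) ∈
      symEnt (Ent h) 3 := fun γ t =>
    ⟨_, ⟨fun _ => EE h γ t, fun _ => ⟨γ, t, rfl⟩, rfl⟩, rfl⟩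
  have hcof : ∀ γ, ∀ E ∈ symEnt (Ent h) 3, ∃ t, E ⊆ (fun p => (mk p.1, mk p.2)) ''
      {p : (Fin 3 → XX Ω) × (Fin 3 → XX Ω) | ∀ j, (p.1 j, p.2 j) ∈ EP h γ t} := by
    rintro γ _ ⟨_, ⟨E, hE, rfl⟩, rfl⟩
    choose β t hβ using hE
    choose t' ht' using fun j => EE_sub_EP' (h := h) (β j) γ (t j)
    refine ⟨Finset.univ.sup t', image_mono fun p hp j => ?_⟩
    refine EP_mono_t (Finset.le_sup (f := t') (Finset.mem_univ j)) (ht' j ?_)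
    rw [← hβ j]
    exact hp j
  obtain ⟨δ, hδ⟩ := reflect hs {q | mk q.1 ∈ A ∧ mk q.2 ∈ B} (by
    intro γ t
    obtain ⟨D, hD, w0, hw0⟩ := hAB _ (hmem γ t)
    obtain ⟨t1, ht1⟩ := hcof γ D hD
    obtain ⟨x0, rfl⟩ := Quotient.exists_rep w0
    refine ⟨max t (max t1 (Finset.univ.sup fun j => (x0 j).2.1)), fun q hq hrel j => ?_⟩
    have h1 : mk q.2 ∈ ball D {mk x0} := hw0
      ⟨⟨mk q.1, hq.1, q, hrel, rfl⟩, ⟨mk q.2, hq.2, (q.2, q.2), fun j => EE_refl _ _ _, rfl⟩⟩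
    obtain ⟨_, rfl, h2⟩ := h1
    obtain ⟨p, hp, h3⟩ := ht1 h2
    obtain ⟨σ, hσ⟩ := Quotient.exact (congrArg Prod.fst h3).symm
    obtain ⟨σ', hσ'⟩ := Quotient.exact (congrArg Prod.snd h3)
    have h4 := EP_lev (Or.inl (EE_symm (hrel j)))
    have h5 := EP_lev (hp (σ' j))
    have h6 : q.2 j = p.2 (σ' j) := congrFun hσ' j
    have h7 : p.1 (σ' j) = x0 (σ (σ' j)) := congrFun hσ (σ' j)
    have h8 := Finset.le_sup (f := fun j => (x0 j).2.1) (Finset.mem_univ (σ (σ' j)))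
    rw [h6] at h4
    rw [h7] at h5
    exact h4.trans (max_le_max le_rfl (h5.trans (max_le_max le_rfl h8))))
  refine normal_of_chain _ A B (fun t => (fun p => (mk p.1, mk p.2)) ''
      {p : (Fin 3 → XX Ω) × (Fin 3 → XX Ω) | ∀ j, (p.1 j, p.2 j) ∈ EP h δ t})
    (fun t t' ht => ?_) (hcof δ) fun t => ?_
  · rintro _ ⟨p, hp, rfl⟩
    exact ⟨p, fun j => EP_mono_t ht (hp j), rfl⟩
  obtain ⟨N, hN⟩ := hδ t
  refine ⟨_, hmem a0 (max t N), mk fun _ => (a0, 0, (0, 0)), ?_⟩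
  rintro w ⟨⟨a, ha, p, hp, h1⟩, ⟨b, hb, p', hp', h2⟩⟩
  have h3 : mk p.2 = mk p'.2 := (congrArg Prod.snd h1).trans (congrArg Prod.snd h2).symm
  obtain ⟨σ, hσ⟩ := Quotient.exact h3.symm
  have h4 : mk (p'.1 ∘ σ) = b := by
    rw [← show mk p'.1 = b from congrArg Prod.fst h2]
    exact (Quotient.sound (s := permSetoid (XX Ω) 3) ⟨σ, rfl⟩).symm
  have h5 := hN (p.1, p'.1 ∘ σ) ⟨(show mk p.1 = a from congrArg Prod.fst h1) ▸ ha, h4 ▸ hb⟩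
    fun j => EP_trans (hp j) (by
      rw [show p.2 j = p'.2 (σ j) from congrFun hσ j]
      exact EP_symm (hp' (σ j)))
  refine ⟨_, rfl, (fun _ => (a0, 0, (0, 0)), p.2), fun j => Or.inr (Or.inl ⟨Nat.zero_le _, ?_⟩),
    Prod.ext rfl (show mk p.2 = w from congrArg Prod.snd h1)⟩
  exact (EP_lev (hp j)).trans (max_le_max le_rfl (h5 j))

/-- The points of the hypersymmetric power. -/
abbrev HH (h : Ω → T) : Type :=
  {A : {A : Set (XX Ω) // IsBdd (Ent h) A ∧ A.Nonempty} | A.1.encard ≤ (3 : ℕ)}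

/-- The set of three points over the index `(i, n)`. -/
def tri (h : Ω → T) (u v w : T) (ι : Ω × ℕ) : HH h :=
  ⟨⟨{(ι.1, ι.2, u), (ι.1, ι.2, v), (ι.1, ι.2, w)},
    ⟨_, ⟨ι.1, ι.2, rfl⟩, (ι.1, ι.2, u), by
      rintro x (rfl | rfl | rfl) <;> exact ⟨_, rfl, Or.inr (Or.inl ⟨le_rfl, le_rfl⟩)⟩⟩,
    insert_nonempty _ _⟩, by
    refine (encard_insert_le _ _).trans ?_
    refine (add_le_add (encard_insert_le _ _) le_rfl).trans ?_
    rw [encard_singleton]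
    rfl⟩

/-- The entourages of the hypersymmetric power. -/
def HE (γ : Ω) (t : ℕ) : Set (HH h × HH h) :=
  {p | p.1.1.1 ⊆ ball (EE h γ t) p.2.1.1 ∧ p.2.1.1 ⊆ ball (EE h γ t) p.1.1.1}

theorem mem_hyp {F : Set (HH h × HH h)} : F ∈ hypersymEnt (Ent h) 3 ↔ ∃ γ t, F = HE γ t := by
  constructor
  · rintro ⟨_, ⟨_, ⟨γ, t, rfl⟩, rfl⟩, rfl⟩
    exact ⟨γ, t, rfl⟩
  · rintro ⟨γ, t, rfl⟩
    exact ⟨_, ⟨_, ⟨γ, t, rfl⟩, rfl⟩, rfl⟩

theorem hyp_bdd {S : Set (HH h)} (hS : IsBdd (hypersymEnt (Ent h) 3) S) :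
    ∃ N, ∀ w ∈ S, ∀ x ∈ w.1.1, x.2.1 ≤ N := by
  obtain ⟨F, hF, w0, hw0⟩ := hS
  obtain ⟨γ, t, rfl⟩ := mem_hyp.1 hF
  obtain ⟨_, ⟨γ', t', rfl⟩, x0, hx0⟩ := w0.1.2.1
  refine ⟨max t (max t' x0.2.1), fun w hw x hx => ?_⟩
  obtain ⟨_, rfl, h1⟩ := hw0 hw
  obtain ⟨y, hy, h2⟩ := h1.2 hx
  obtain ⟨_, rfl, h3⟩ := hx0 hy
  exact (EP_lev (Or.inl h2)).trans (max_le_max le_rfl (EP_lev (Or.inl h3)))

theorem tri_rel {γ : Ω} {ι : Ω × ℕ} (hι : ι.1 < γ) {u v w u' v' w' : T}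
    (h1 : ∀ x ∈ ({u, v, w} : Set T), ∃ y ∈ ({u', v', w'} : Set T),
      RR (col h (0, 0) γ ι.1 ι.2) y x)
    (h2 : ∀ x ∈ ({u', v', w'} : Set T), ∃ y ∈ ({u, v, w} : Set T),
      RR (col h (0, 0) γ ι.1 ι.2) y x) :
    (tri h u v w ι, tri h u' v' w' ι) ∈ HE (h := h) γ 0 := by
  have key : ∀ {u v w u' v' w' : T}, (∀ x ∈ ({u, v, w} : Set T), ∃ y ∈ ({u', v', w'} : Set T),
      RR (col h (0, 0) γ ι.1 ι.2) y x) →
      (tri h u v w ι).1.1 ⊆ ball (EE h γ 0) (tri h u' v' w' ι).1.1 := by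
    intro u v w u' v' w' hh x hx
    have h3 : x.2.2 ∈ ({u, v, w} : Set T) ∧ x = (ι.1, ι.2, x.2.2) := by
      rcases hx with rfl | rfl | rfl <;> simp
    obtain ⟨y, hy, hr⟩ := hh _ h3.1
    refine ⟨(ι.1, ι.2, y), ?_, ?_⟩
    · rcases hy with rfl | rfl | rfl
      · exact Or.inl rfl
      · exact Or.inr (Or.inl rfl)
      · exact Or.inr (Or.inr rfl)
    · rw [h3.2]
      exact Or.inr (Or.inr ⟨rfl, rfl, hι, hr⟩)
  exact ⟨key h1, key h2⟩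

theorem no_colour : ∀ s : T, ¬ (RR s (0, 0) (0, 1) ∧ RR s (0, 0) (0, 2) ∧
    RR s (1, 0) (1, 1) ∧ RR s (1, 0) (1, 2)) := by decide

theorem hyp_not_normal (hs : ∀ s, Stat {β | h β = s}) : ¬ IsNormal (hypersymEnt (Ent h) 3) := by
  intro hn
  obtain ⟨a0⟩ : Nonempty Ω := inferInstance
  obtain ⟨U, V, hUV, hU, hV⟩ := hn (range (tri h (0, 1) (0, 2) (1, 0)))
    (range (tri h (0, 0) (1, 1) (1, 2))) (by
      intro F hF
      obtain ⟨γ, t, rfl⟩ := mem_hyp.1 hF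
      refine ⟨_, mem_hyp.2 ⟨γ, t, rfl⟩, tri h (0, 0) (0, 0) (0, 0) (a0, 0), ?_⟩
      rintro w ⟨⟨_, ⟨ι, rfl⟩, h1⟩, ⟨_, ⟨ι', rfl⟩, h2⟩⟩
      have h3 : ∀ x ∈ (tri h (0, 1) (0, 2) (1, 0) ι).1.1,
          ∃ y ∈ (tri h (0, 0) (1, 1) (1, 2) ι').1.1, (y, x) ∈ EE h γ t := by
        intro x hx
        obtain ⟨z, hz, k1⟩ := h1.1 hx
        obtain ⟨y, hy, k2⟩ := h2.2 hz
        exact ⟨y, hy, EE_trans k2 k1⟩
      have h4 : ∀ x ∈ (tri h (0, 0) (1, 1) (1, 2) ι').1.1,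
          ∃ y ∈ (tri h (0, 1) (0, 2) (1, 0) ι).1.1, (y, x) ∈ EE h γ t := by
        intro x hx
        obtain ⟨z, hz, k1⟩ := h2.1 hx
        obtain ⟨y, hy, k2⟩ := h1.2 hz
        exact ⟨y, hy, EE_trans k2 k1⟩
      have hlev : ι.2 ≤ t := by
        by_contra hlt
        have key : ∀ (u v : T), u ≠ v → ∀ κ κ' : Ω × ℕ, (κ = ι ∨ κ' = ι) →
            ((κ.1, κ.2, u), (κ'.1, κ'.2, v)) ∈ EE h γ t →
            κ = κ' ∧ RR (col h (0, 0) γ ι.1 ι.2) u v := by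
          intro u v huv κ κ' hκ hE
          rcases hE with k | ⟨k1, k2⟩ | ⟨k1, k2, k3, k4⟩
          · exact absurd (congrArg (fun x : XX Ω => x.2.2) k) huv
          · rcases hκ with rfl | rfl
            · exact absurd k1 hlt
            · exact absurd k2 hlt
          · have k5 : κ = κ' := Prod.ext k1 k2
            have k6 : κ = ι := by
              rcases hκ with k | k
              · exact k
              · exact k5.trans k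
            subst k6
            exact ⟨k5, k4⟩
        have a1 : RR (col h (0, 0) γ ι.1 ι.2) (0, 0) (0, 1) := by
          obtain ⟨y, hy, k⟩ := h3 _ (Or.inl rfl)
          rcases hy with rfl | rfl | rfl
          · exact (key _ _ (by decide) _ _ (Or.inr rfl) k).2
          · exact absurd (key _ _ (by decide) _ _ (Or.inr rfl) k).2.1 (by decide)
          · exact absurd (key _ _ (by decide) _ _ (Or.inr rfl) k).2.1 (by decide)
        have a2 : RR (col h (0, 0) γ ι.1 ι.2) (0, 0) (0, 2) := by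
          obtain ⟨y, hy, k⟩ := h3 _ (Or.inr (Or.inl rfl))
          rcases hy with rfl | rfl | rfl
          · exact (key _ _ (by decide) _ _ (Or.inr rfl) k).2
          · exact absurd (key _ _ (by decide) _ _ (Or.inr rfl) k).2.1 (by decide)
          · exact absurd (key _ _ (by decide) _ _ (Or.inr rfl) k).2.1 (by decide)
        have a3 : RR (col h (0, 0) γ ι.1 ι.2) (1, 0) (1, 1) := by
          obtain ⟨y, hy, k⟩ := h4 _ (Or.inr (Or.inl rfl))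
          rcases hy with rfl | rfl | rfl
          · exact absurd (key _ _ (by decide) _ _ (Or.inl rfl) k).2.1 (by decide)
          · exact absurd (key _ _ (by decide) _ _ (Or.inl rfl) k).2.1 (by decide)
          · exact (key _ _ (by decide) _ _ (Or.inl rfl) k).2
        have a4 : RR (col h (0, 0) γ ι.1 ι.2) (1, 0) (1, 2) := by
          obtain ⟨y, hy, k⟩ := h4 _ (Or.inr (Or.inr rfl))
          rcases hy with rfl | rfl | rfl
          · exact absurd (key _ _ (by decide) _ _ (Or.inl rfl) k).2.1 (by decide)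
          · exact absurd (key _ _ (by decide) _ _ (Or.inl rfl) k).2.1 (by decide)
          · exact (key _ _ (by decide) _ _ (Or.inl rfl) k).2
        exact no_colour _ ⟨a1, a2, a3, a4⟩
      have hw : ∀ x ∈ w.1.1, x.2.1 ≤ t := by
        intro x hx
        obtain ⟨y, hy, k⟩ := h1.2 hx
        have : y.2.1 = ι.2 := by rcases hy with rfl | rfl | rfl <;> rfl
        exact (EP_lev (Or.inl k)).trans (max_le le_rfl (this ▸ hlev))
      refine ⟨_, rfl, ?_, ?_⟩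
      · intro x hx
        obtain ⟨y, hy⟩ := w.1.2.2
        have : x.2.1 = 0 := by rcases hx with rfl | rfl | rfl <;> rfl
        exact ⟨y, hy, Or.inr (Or.inl ⟨hw y hy, this ▸ Nat.zero_le t⟩)⟩
      · intro x hx
        exact ⟨(a0, 0, (0, 0)), Or.inl rfl, Or.inr (Or.inl ⟨Nat.zero_le t, hw x hx⟩)⟩)
  obtain ⟨t1, ht1⟩ := antiRamsey h (0, 0) (hs (1, 0))
    (fun i n => tri h (0, 0) (0, 0) (1, 0) (i, n) ∉ U) (by
      intro γ
      obtain ⟨N, hN⟩ := hyp_bdd (hU _ (mem_hyp.2 ⟨γ, 0, rfl⟩))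
      refine ⟨N, fun i n hZ hi hc => hN _ ⟨⟨_, ⟨(i, n), rfl⟩, tri_rel hi ?_ ?_⟩, hZ⟩
        (i, n, (0, 0)) (Or.inl rfl)⟩
      · rw [hc]; simp only [mem_insert_iff, mem_singleton_iff]; decide
      · rw [hc]; simp only [mem_insert_iff, mem_singleton_iff]; decide)
  obtain ⟨t2, ht2⟩ := antiRamsey h (0, 0) (hs (0, 0))
    (fun i n => tri h (0, 0) (0, 0) (1, 0) (i, n) ∉ V) (by
      intro γ
      obtain ⟨N, hN⟩ := hyp_bdd (hV _ (mem_hyp.2 ⟨γ, 0, rfl⟩))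
      refine ⟨N, fun i n hZ hi hc => hN _ ⟨⟨_, ⟨(i, n), rfl⟩, tri_rel hi ?_ ?_⟩, hZ⟩
        (i, n, (0, 0)) (Or.inl rfl)⟩
      · rw [hc]; simp only [mem_insert_iff, mem_singleton_iff]; decide
      · rw [hc]; simp only [mem_insert_iff, mem_singleton_iff]; decide)
  obtain ⟨b1, hb1⟩ := ht1 (t1 + t2 + 1) (by omega)
  obtain ⟨b2, hb2⟩ := ht2 (t1 + t2 + 1) (by omega)
  obtain ⟨i, hi⟩ := exists_ub ((countable_singleton b2).insert b1)
  by_cases hc : tri h (0, 0) (0, 0) (1, 0) (i, t1 + t2 + 1) ∈ U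
  · exact absurd (hb2 i (Set.disjoint_left.1 hUV hc)) (not_le.2 (hi b2 (Or.inr rfl)))
  · exact absurd (hb1 i hc) (not_le.2 (hi b1 (Or.inl rfl)))

theorem main : ∃ (X : Type) (𝓔 : Set (Set (X × X))),
    IsBallean 𝓔 ∧ IsNormal (symEnt 𝓔 3) ∧ ¬ IsNormal (hypersymEnt 𝓔 3) := by
  obtain ⟨Ω, _, _⟩ := exists_omegaOne
  obtain ⟨h, hs⟩ := exists_partition (Ω := Ω) T
  exact ⟨XX Ω, Ent h, isBallean, sym_normal hs, hyp_not_normal hs⟩

end Pool.Agent.P.MP_267911_gt
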